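import Pool.Agent.H70.FreeQ

set_option autoImplicit false

namespace Pool.Agent.Results.MP_6087e2_al.AllN

open Pool.Agent.H70.FreeQ Quaternion Matrix

abbrev F := FreeGroup Bool

section
variable {ι κ : Type} [Fintype ι] [DecidableEq ι] [Fintype κ] [DecidableEq κ]

def Or' (ρ : F →* Matrix ι ι ℝ) : Prop := ∀ g, ρ g * (ρ g)ᵀ = 1
def LC (ρ : F →* Matrix ι ι ℝ) : Prop :=
  ∀ g h x, x ≠ 0 → ρ g *ᵥ x = x → ρ h *ᵥ x = x → Commute g h
def Ne' (ρ : F →* Matrix ι ι ℝ) : Prop := ∃ g x, x ≠ 0 ∧ ρ g *ᵥ x = -x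
def De (ρ : F →* Matrix ι ι ℝ) : Prop := ∀ g, (ρ g).det = 1

def sm (ρ : F →* Matrix ι ι ℝ) (τ : F →* Matrix κ κ ℝ) : F →* Matrix (ι ⊕ κ) (ι ⊕ κ) ℝ where
  toFun g := fromBlocks (ρ g) 0 0 (τ g)
  map_one' := by simp
  map_mul' a b := by simp [fromBlocks_multiply]

theorem sm_or {ρ : F →* Matrix ι ι ℝ} {τ : F →* Matrix κ κ ℝ} (h : Or' ρ) (k : Or' τ) :
    Or' (sm ρ τ) := fun g => by
  simp [sm, fromBlocks_transpose, fromBlocks_multiply, h g, k g]

theorem sm_vec (ρ : F →* Matrix ι ι ℝ) (τ : F →* Matrix κ κ ℝ) (g : F) (x : ι ⊕ κ → ℝ) :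
    sm ρ τ g *ᵥ x = Sum.elim (ρ g *ᵥ (x ∘ Sum.inl)) (τ g *ᵥ (x ∘ Sum.inr)) := by
  simp [sm, fromBlocks_mulVec]

theorem sm_lc {ρ : F →* Matrix ι ι ℝ} {τ : F →* Matrix κ κ ℝ} (h : LC ρ) (k : LC τ) :
    LC (sm ρ τ) := fun a b x hx ha hb => by
  rw [sm_vec] at ha hb
  by_cases h0 : x ∘ Sum.inl = 0
  · refine k a b (x ∘ Sum.inr) (fun h1 => hx ?_) (funext fun i => congrFun ha (Sum.inr i))
      (funext fun i => congrFun hb (Sum.inr i))
    funext i
    rcases i with i | i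
    exacts [congrFun h0 i, congrFun h1 i]
  · exact h a b _ h0 (funext fun i => congrFun ha (Sum.inl i))
      (funext fun i => congrFun hb (Sum.inl i))

theorem sm_ne {ρ : F →* Matrix ι ι ℝ} (τ : F →* Matrix κ κ ℝ) (h : Ne' ρ) : Ne' (sm ρ τ) := by
  obtain ⟨g, x, hx, h⟩ := h
  refine ⟨g, Sum.elim x 0, fun h0 => hx (funext fun i => congrFun h0 (Sum.inl i)), ?_⟩
  rw [sm_vec]
  funext i
  rcases i with i | i <;> simp [h]

theorem sm_det (ρ : F →* Matrix ι ι ℝ) (τ : F →* Matrix κ κ ℝ) (g : F) :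
    (sm ρ τ g).det = (ρ g).det * (τ g).det := det_fromBlocks_zero₂₁ _ _ _

theorem sm_inj {ρ : F →* Matrix ι ι ℝ} (τ : F →* Matrix κ κ ℝ) (h : Function.Injective ρ) :
    Function.Injective (sm ρ τ) := fun _ _ e => h (fromBlocks_inj.1 e).1

def Good (ι : Type) [Fintype ι] [DecidableEq ι] : Prop :=
  ∃ ρ : F →* Matrix ι ι ℝ, Or' ρ ∧ LC ρ ∧ Ne' ρ ∧ De ρ ∧ Function.Injective ρ

theorem Good.equiv (h : Good ι) (e : ι ≃ κ) : Good κ := by
  obtain ⟨ρ, h1, h2, ⟨g, x, hx, h3⟩, h4, h5⟩ := h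
  have hv : ∀ (M : Matrix ι ι ℝ) (y : κ → ℝ),
      reindex e e M *ᵥ y = (M *ᵥ (y ∘ e)) ∘ e.symm := fun M y => by
    rw [reindex_apply, submatrix_mulVec_equiv]; simp
  refine ⟨(reindexAlgEquiv ℝ ℝ e : Matrix ι ι ℝ →* Matrix κ κ ℝ).comp ρ, fun g => ?_,
    fun a b y hy ha hb => ?_, ⟨g, x ∘ e.symm, fun h0 => hx ?_, ?_⟩, fun g => ?_,
    (reindexAlgEquiv ℝ ℝ e).injective.comp h5⟩
  · show reindex e e (ρ g) * (reindex e e (ρ g))ᵀ = 1
    rw [transpose_reindex, reindex_apply, reindex_apply, submatrix_mul_equiv, h1 g]; simp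
  · refine h2 a b (y ∘ e) (fun h0 => hy ?_) ?_ ?_
    · funext i; simpa using congrFun h0 (e.symm i)
    · funext i
      have := congrFun ((hv (ρ a) y).symm.trans ha) (e i)
      simpa using this
    · funext i
      have := congrFun ((hv (ρ b) y).symm.trans hb) (e i)
      simpa using this
  · funext i; simpa using congrFun h0 (e i)
  · refine (hv (ρ g) _).trans ?_
    have : (x ∘ e.symm) ∘ e = x := by funext i; simp
    rw [this, h3]; rfl
  · show (reindex e e (ρ g)).det = 1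
    rw [det_reindex_self, h4 g]

noncomputable def mk (A : Bool → Matrix ι ι ℝ) (h : ∀ b, A b * (A b)ᵀ = 1) :
    F →* Matrix ι ι ℝ :=
  (orthogonalGroup ι ℝ).subtype.comp
    (FreeGroup.lift fun b => ⟨A b, (mem_orthogonalGroup_iff ι ℝ).2 (h b)⟩)

theorem mk_of (A : Bool → Matrix ι ι ℝ) (h) (b : Bool) : mk A h (FreeGroup.of b) = A b := by
  simp [mk]

theorem mk_or (A : Bool → Matrix ι ι ℝ) (h) : Or' (mk A h) := fun _ =>
  (mem_orthogonalGroup_iff ι ℝ).1 (Subtype.prop _)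

theorem de_of (ρ : F →* Matrix ι ι ℝ) (h : ∀ b, (ρ (FreeGroup.of b)).det = 1) : De ρ := by
  intro g
  induction g using FreeGroup.induction_on with
  | C1 => simp
  | of b => exact h b
  | inv_of b ih =>
    have : (ρ (FreeGroup.of b)⁻¹ * ρ (FreeGroup.of b)).det = 1 := by rw [← map_mul]; simp
    rwa [det_mul, ih, mul_one] at this
  | mul a b ha hb => rw [map_mul, det_mul, ha, hb, mul_one]

theorem inter (ρ : F →* Matrix ι ι ℝ) (T : (ι → ℝ) → ℍ[ℝ]) (α β : F →* unitary ℍ[ℝ])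
    (h : ∀ b x, T (ρ (FreeGroup.of b) *ᵥ x) * β (FreeGroup.of b) = α (FreeGroup.of b) * T x)
    (g : F) : ∀ x, T (ρ g *ᵥ x) * β g = α g * T x := by
  induction g using FreeGroup.induction_on with
  | C1 => simp
  | of b => exact h b
  | inv_of b ih =>
    intro x
    have := ih (ρ (FreeGroup.of b)⁻¹ *ᵥ x)
    rw [mulVec_mulVec, ← map_mul, mul_inv_cancel, map_one, one_mulVec] at this
    have e1 : (α (FreeGroup.of b)⁻¹ : ℍ[ℝ]) * α (FreeGroup.of b) = 1 := by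
      rw [← Submonoid.coe_mul, ← map_mul]; simp
    have e2 : (β (FreeGroup.of b) : ℍ[ℝ]) * β (FreeGroup.of b)⁻¹ = 1 := by
      rw [← Submonoid.coe_mul, ← map_mul]; simp
    calc _ = (α (FreeGroup.of b)⁻¹ : ℍ[ℝ]) * (α (FreeGroup.of b) *
          T (ρ (FreeGroup.of b)⁻¹ *ᵥ x)) * β (FreeGroup.of b)⁻¹ := by
            rw [← mul_assoc, e1, one_mul]
      _ = _ := by rw [← this, mul_assoc, mul_assoc, e2, mul_one]
  | mul a b ha hb =>
    intro x
    rw [map_mul, map_mul, map_mul, ← mulVec_mulVec, Submonoid.coe_mul, Submonoid.coe_mul,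
      ← mul_assoc, ha, mul_assoc, hb, mul_assoc]

end

/-- rotation matrices, with a sign -/
noncomputable def R3 (s : ℝ) (b : Bool) : Matrix (Fin 3) (Fin 3) ℝ :=
  if b then s • !![1, 0, 0; 0, -7/25, -24/25; 0, 24/25, -7/25]
  else !![-7/25, 0, 24/25; 0, 1, 0; -24/25, 0, -7/25]

theorem R3_or (s : ℝ) (hs : s = 1 ∨ s = -1) (b : Bool) : R3 s b * (R3 s b)ᵀ = 1 := by
  ext i j
  rcases hs with rfl | rfl <;> cases b <;> fin_cases i <;> fin_cases j <;>
    simp [R3, Matrix.mul_apply, Fin.sum_univ_three] <;> norm_num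

def T3 (x : Fin 3 → ℝ) : ℍ[ℝ] := ⟨0, x 0, x 1, x 2⟩

theorem T3_ne (x : Fin 3 → ℝ) (hx : x ≠ 0) :
    ¬ ((T3 x).imI = 0 ∧ (T3 x).imJ = 0 ∧ (T3 x).imK = 0) := fun h => hx (by
  funext i; fin_cases i
  exacts [h.1, h.2.1, h.2.2])

@[simp] theorem cneg (u : unitary ℍ[ℝ]) : ((-u : unitary ℍ[ℝ]) : ℍ[ℝ]) = -(u : ℍ[ℝ]) := rfl

noncomputable def al : F →* unitary ℍ[ℝ] :=
  FreeGroup.lift fun b => if b then -gen true else gen false

theorem al_pm (g : F) : al g = sig g ∨ al g = -sig g := by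
  induction g using FreeGroup.induction_on with
  | C1 => simp
  | of b => cases b <;> simp [al, sig]
  | inv_of b ih => rcases ih with h | h <;> simp [h]
  | mul a b ha hb => rcases ha with h | h <;> rcases hb with k | k <;> simp [h, k]

theorem lc3 (ρ : F →* Matrix (Fin 3) (Fin 3) ℝ) (α : F →* unitary ℍ[ℝ])
    (hα : ∀ g, α g = sig g ∨ α g = -sig g)
    (h : ∀ g x, T3 (ρ g *ᵥ x) * sig g = α g * T3 x) : LC ρ ∧ Function.Injective ρ := by
  have key : ∀ g x, x ≠ 0 → ρ g *ᵥ x = x → (sig g : ℍ[ℝ]) * T3 x = T3 x * sig g := by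
    intro g x hx hg
    have := h g x
    rw [hg] at this
    rcases hα g with k | k <;> rw [k] at this
    · exact this.symm
    · rw [anti g (T3 x) rfl (T3_ne x hx) (by rw [this, cneg, neg_mul, neg_neg])]
      simp
  refine ⟨fun a b x hx ha hb => comm_of _ _ (comm_pure _ _ _ (T3_ne x hx) (key a x hx ha)
    (key b x hx hb)), (injective_iff_map_eq_one _).2 fun g hg => ?_⟩
  have k1 := key g ![1, 0, 0] (by simp) (by simp [hg])
  have k2 := key g ![0, 1, 0] (by simp) (by simp [hg])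
  have a1 := congrArg (fun t : ℍ[ℝ] => t.imJ) k1
  have a2 := congrArg (fun t : ℍ[ℝ] => t.imK) k1
  have a3 := congrArg (fun t : ℍ[ℝ] => t.imK) k2
  simp [T3] at a1 a2 a3
  exact sig_free g (by linarith) (by linarith) (by linarith)

noncomputable def P3 := mk (R3 1) (R3_or 1 (Or.inl rfl))
noncomputable def N3 := mk (R3 (-1)) (R3_or _ (Or.inr rfl))

theorem P3_lc : LC P3 ∧ Function.Injective P3 :=
  lc3 _ sig (fun _ => Or.inl rfl) (inter _ _ _ _ fun b x => by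
    rw [P3, mk_of]
    cases b <;> ext <;> simp [R3, T3, sig, gen, lt, mulVec, dotProduct, Fin.sum_univ_three] <;> ring)

theorem N3_lc : LC N3 ∧ Function.Injective N3 :=
  lc3 _ al al_pm (inter _ _ _ _ fun b x => by
    rw [N3, mk_of]
    cases b <;> ext <;>
      simp [R3, T3, sig, al, gen, lt, mulVec, dotProduct, Fin.sum_univ_three] <;> ring)

theorem P3_de : De P3 := de_of _ fun b => by
  rw [P3, mk_of]
  cases b <;> simp [R3, det_fin_three] <;> norm_num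

theorem N3_ne : Ne' N3 := ⟨FreeGroup.of true, ![1, 0, 0], by simp, by
  rw [N3, mk_of]
  funext i
  fin_cases i <;> simp [R3, mulVec, dotProduct, Fin.sum_univ_three]⟩

noncomputable def R4 (b : Bool) : Matrix (Fin 4) (Fin 4) ℝ :=
  if b then !![-1, 0, 0, 0; 0, -1, 0, 0; 0, 0, 7/25, 24/25; 0, 0, -24/25, 7/25]
  else !![3/5, 0, -4/5, 0; 0, 3/5, 0, 4/5; 4/5, 0, 3/5, 0; 0, -4/5, 0, 3/5]

theorem R4_or (b : Bool) : R4 b * (R4 b)ᵀ = 1 := by
  ext i j
  cases b <;> fin_cases i <;> fin_cases j <;>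
    simp [R4, Matrix.mul_apply, Fin.sum_univ_four] <;> norm_num

noncomputable def U4 := mk R4 R4_or

def T4 (x : Fin 4 → ℝ) : ℍ[ℝ] := ⟨x 0, x 1, x 2, x 3⟩

noncomputable def ch : F →* unitary ℍ[ℝ] := FreeGroup.lift fun b => if b then -gen true else 1

theorem ch_c (g : F) : Commute (ch g) (gen true) := by
  induction g using FreeGroup.induction_on with
  | C1 => simp
  | of b => cases b <;> simp [ch]
  | inv_of b ih => simpa using ih
  | mul a b ha hb => simpa using ha.mul_left hb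

theorem ch_cc (g h : F) : Commute (ch g) (ch h) := by
  induction h using FreeGroup.induction_on with
  | C1 => simp
  | of b => cases b <;> simp [ch_c g, show ch (FreeGroup.of true) = -gen true by simp [ch],
      show ch (FreeGroup.of false) = 1 by simp [ch]]
  | inv_of b ih => simpa using ih
  | mul a b ha hb => simpa using ha.mul_right hb

theorem U4_i : ∀ g x, T4 (U4 g *ᵥ x) * ch g = sig g * T4 x := inter _ _ _ _ fun b x => by
  rw [U4, mk_of]
  cases b <;> ext <;>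
    simp [R4, T4, sig, ch, gen, lt, mulVec, dotProduct, Fin.sum_univ_four] <;> ring

theorem U4_lc : LC U4 := fun a b x hx ha hb => by
  have h1 := U4_i a x
  have h2 := U4_i b x
  rw [ha] at h1
  rw [hb] at h2
  have h0 : T4 x ≠ 0 := fun h => hx (by
    funext i; fin_cases i
    exacts [congrArg (fun t : ℍ[ℝ] => t.re) h, congrArg (fun t : ℍ[ℝ] => t.imI) h,
      congrArg (fun t : ℍ[ℝ] => t.imJ) h, congrArg (fun t : ℍ[ℝ] => t.imK) h])
  have c : (ch a : ℍ[ℝ]) * ch b = ch b * ch a := congrArg Subtype.val (ch_cc a b).eq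
  refine comm_of _ _ (mul_right_cancel₀ h0 ?_)
  rw [mul_assoc, ← h2, ← mul_assoc, ← h1, mul_assoc, c, ← mul_assoc, h2, mul_assoc, h1, mul_assoc]

theorem U4_de : De U4 := de_of _ fun b => by
  rw [U4, mk_of]
  cases b <;> simp [R4, det_succ_row_zero, Fin.sum_univ_succ, Fin.succAbove] <;> norm_num

theorem U4_ne : Ne' U4 := ⟨FreeGroup.of true, ![1, 0, 0, 0], by simp, by
  rw [U4, mk_of]
  funext i
  fin_cases i <;> simp [R4, mulVec, dotProduct, Fin.sum_univ_four]⟩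

theorem U4_inj : Function.Injective U4 := (injective_iff_map_eq_one _).2 fun g hg => by
  have k0 := U4_i g ![1, 0, 0, 0]
  have k1 := U4_i g ![0, 1, 0, 0]
  have k2 := U4_i g ![0, 0, 1, 0]
  rw [hg, one_mulVec] at k0 k1 k2
  have e : (ch g : ℍ[ℝ]) = sig g := by
    have : T4 ![1, 0, 0, 0] = 1 := rfl
    rwa [this, one_mul, mul_one] at k0
  rw [e] at k1 k2
  have a1 := congrArg (fun t : ℍ[ℝ] => t.imJ) k1
  have a2 := congrArg (fun t : ℍ[ℝ] => t.imK) k1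
  have a3 := congrArg (fun t : ℍ[ℝ] => t.imK) k2
  simp [T4] at a1 a2 a3
  exact sig_free g (by linarith) (by linarith) (by linarith)

theorem step (n : ℕ) (h : Good (Fin n)) : Good (Fin (n + 3)) := by
  obtain ⟨ρ, h1, h2, h3, h4, h5⟩ := h
  exact Good.equiv ⟨sm ρ P3, sm_or h1 (mk_or _ _), sm_lc h2 P3_lc.1, sm_ne _ h3,
    fun g => by rw [sm_det, h4, P3_de, mul_one], sm_inj _ h5⟩ finSumFinEquiv

theorem g4 : Good (Fin 4) := ⟨U4, mk_or _ _, U4_lc, U4_ne, U4_de, U4_inj⟩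

theorem g6 : Good (Fin 6) :=
  Good.equiv ⟨sm N3 N3, sm_or (mk_or _ _) (mk_or _ _), sm_lc N3_lc.1 N3_lc.1, sm_ne _ N3_ne,
    fun g => by
      have := congrArg det (mk_or (R3 (-1)) (R3_or _ (Or.inr rfl)) g)
      rw [det_mul, det_transpose, det_one] at this
      rw [sm_det]; exact this, sm_inj _ N3_lc.2⟩ (finSumFinEquiv (m := 3) (n := 3))

theorem g8 : Good (Fin 8) :=
  Good.equiv ⟨sm U4 U4, sm_or (mk_or _ _) (mk_or _ _), sm_lc U4_lc U4_lc, sm_ne _ U4_ne,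
    fun g => by rw [sm_det, U4_de, mul_one], sm_inj _ U4_inj⟩ (finSumFinEquiv (m := 4) (n := 4))

theorem gall (n : ℕ) : Good (Fin (n + 6)) := by
  induction n using Nat.strong_induction_on with
  | _ n ih =>
    match n with
    | 0 => exact g6
    | 1 => exact step 4 g4
    | 2 => exact g8
    | n + 3 => exact step (n + 6) (ih n (by omega))

theorem result : ∀ n : ℕ, 6 ≤ n →
    ∃ G : Subgroup (Matrix.specialOrthogonalGroup (Fin n) ℝ),
      Nonempty (G ≃* FreeGroup Bool) ∧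
      (∀ g ∈ G, ∀ h ∈ G, (∃ x : Fin n → ℝ, x ⬝ᵥ x = 1 ∧ g.1 *ᵥ x = x ∧ h.1 *ᵥ x = x) →
        g * h = h * g) ∧
      ∃ g ∈ G, ∃ x : Fin n → ℝ, x ≠ 0 ∧ g.1 *ᵥ x = -x := by
  intro n hn
  obtain ⟨n, rfl⟩ := Nat.exists_eq_add_of_le' hn
  obtain ⟨ρ, h1, h2, ⟨g, x, hx, h3⟩, h4, h5⟩ := gall n
  let τ : F →* Matrix.specialOrthogonalGroup (Fin (n + 6)) ℝ := ρ.codRestrict _ fun g =>
    mem_specialOrthogonalGroup_iff.2 ⟨(mem_orthogonalGroup_iff _ ℝ).2 (h1 g), h4 g⟩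
  refine ⟨τ.range, ⟨(MonoidHom.ofInjective (f := τ) fun a b e =>
    h5 (congrArg Subtype.val e)).symm⟩, ?_, τ g, ⟨g, rfl⟩, x, hx, h3⟩
  rintro _ ⟨a, rfl⟩ _ ⟨b, rfl⟩ ⟨y, hy, ha, hb⟩
  rw [← map_mul, ← map_mul, (h2 a b y (by rintro rfl; simp at hy) ha hb).eq]

end Pool.Agent.Results.MP_6087e2_al.AllN
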